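import Pool.Agent.H41.PS.Stm

set_option autoImplicit false

/-! LT (helper870 for helper41): the lane test `lt` detects. -/

namespace Pool.Agent.H870.PS.LT

open Pool.Agent.H41.PS

theorem slow_succ (R c n : ℕ) :
    slow R c (n + 1) = Bool.rec false (slow R c n) (lane R c (Nat.add n 4)) := rfl

theorem slow_false (R c : ℕ) {i : ℕ} (h : lane R c (i + 4) = false) :
    ∀ n, i < n → slow R c n = false := by
  intro n
  induction n with
  | zero => intro h; omega
  | succ n ih =>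
    intro hi
    rw [slow_succ]
    by_cases hin : i = n
    · subst hin
      have h' : lane R c (Nat.add i 4) = false := h
      rw [h']
    · rw [ih (by omega)]
      cases lane R c (Nat.add n 4) <;> rfl

theorem ne_zero_of_testBit {n i : ℕ} (h : n.testBit i = true) : n ≠ 0 := by
  rintro rfl
  rw [Nat.zero_testBit] at h
  exact Bool.false_ne_true h

theorem beq_false {n : ℕ} (h : n ≠ 0) : Nat.beq n 0 = false := by
  cases n with
  | zero => exact absurd rfl h
  | succ n => rfl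

/-- the bits of a lane -/
theorem lane_bit (R l x : ℕ) (hx : x < 1024) :
    (Nat.mod (Nat.shiftRight R (Nat.mul 1024 l)) (Nat.shiftLeft 1 1024)).testBit x =
      R.testBit (1024 * l + x) := by
  have h1 : Nat.mod (Nat.shiftRight R (Nat.mul 1024 l)) (Nat.shiftLeft 1 1024) =
      (R >>> (1024 * l)) % (1 <<< 1024) := rfl
  rw [h1, Nat.one_shiftLeft, Nat.testBit_mod_two_pow, Nat.testBit_shiftRight]
  simp [hx]

theorem lane_false (hEXT : S_EXT) (R l M c0 : ℕ) (a b c d : ℕ) (ha : a < 1024)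
    (hb : b < 1024) (hc : c < 1024) (hd : d < 1024) (hM : M < 1024)
    (hMc : c0.testBit (1024 * l + M) = true)
    (hRa : R.testBit (1024 * l + a) = true)
    (hRb : R.testBit (1024 * l + b) = true) (hRc : R.testBit (1024 * l + c) = true)
    (hRd : R.testBit (1024 * l + d) = true) (h1 : a ≠ b) (h2 : a ≠ c) (h3 : a ≠ d) (h4 : b ≠ c)
    (h5 : b ≠ d) (h6 : c ≠ d) (h7 : a ^^^ b = c ^^^ d)
    (h8 : (F.testBit a ^^ F.testBit b) = (F.testBit c ^^ F.testBit d)) :
    lane R c0 l = false := by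
  unfold lane
  have hne : Nat.mod (Nat.shiftRight c0 (Nat.mul 1024 l)) (Nat.shiftLeft 1 1024) ≠ 0 :=
    ne_zero_of_testBit (i := M) (by rw [lane_bit _ _ _ hM]; exact hMc)
  rw [beq_false hne]
  show fc (fun Q => ext 1024 Q [])
    (Nat.mod (Nat.shiftRight R (Nat.mul 1024 l)) (Nat.shiftLeft 1 1024)) = false
  rw [fc_eq]
  refine hEXT _ 1024 a b c d ?_ ?_ ?_ ?_ ?_ h1 h2 h3 h4 h5 h6 h7 h8
  · have h9 : Nat.mod (Nat.shiftRight R (Nat.mul 1024 l)) (Nat.shiftLeft 1 1024) =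
        (R >>> (1024 * l)) % (1 <<< 1024) := rfl
    rw [h9, Nat.one_shiftLeft]
    exact Nat.mod_lt _ (Nat.two_pow_pos _)
  · rw [lane_bit _ _ _ ha]; exact hRa
  · rw [lane_bit _ _ _ hb]; exact hRb
  · rw [lane_bit _ _ _ hc]; exact hRc
  · rw [lane_bit _ _ _ hd]; exact hRd

theorem t_LT : S_RL → S_EXT → S_LT := by
  intro hRL hEXT R l a b c d hR hl4 hl8 ha hb hc hd hRa hRb hRc hRd h1 h2 h3 h4 h5 h6 h7 h8
  -- the largest point
  have hS : ({a, b, c, d} : Finset ℕ).card = 4 := by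
    rw [Finset.card_insert_of_notMem, Finset.card_insert_of_notMem, Finset.card_insert_of_notMem,
      Finset.card_singleton]
    · simpa using h6
    · simp [h4, h5]
    · simp [h1, h2, h3]
  have hin : ∀ i : Fin 4, ({a, b, c, d} : Finset ℕ).orderEmbOfFin hS i < 1024 ∧
      R.testBit (1024 * l + ({a, b, c, d} : Finset ℕ).orderEmbOfFin hS i) = true := by
    intro i
    have h := Finset.orderEmbOfFin_mem ({a, b, c, d} : Finset ℕ) hS i
    simp only [Finset.mem_insert, Finset.mem_singleton] at h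
    rcases h with h | h | h | h <;> rw [h]
    · exact ⟨ha, hRa⟩
    · exact ⟨hb, hRb⟩
    · exact ⟨hc, hRc⟩
    · exact ⟨hd, hRd⟩
  have hlt : ∀ i j : Fin 4, i < j → ({a, b, c, d} : Finset ℕ).orderEmbOfFin hS i <
      ({a, b, c, d} : Finset ℕ).orderEmbOfFin hS j :=
    fun i j hij => (Finset.orderEmbOfFin _ hS).strictMono hij
  generalize ({a, b, c, d} : Finset ℕ).orderEmbOfFin hS = f at hin hlt
  obtain ⟨k1, r1⟩ := hRL R hR
  obtain ⟨k2, r2⟩ := hRL (rl R) k1
  obtain ⟨k3, r3⟩ := hRL (rl (rl R)) k2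
  have e1 := r1 l (f 0) (f 1) hl4 hl8 (hlt 0 1 (by decide)) (hin 1).1 (hin 0).2 (hin 1).2
  have e2 := r1 l (f 0) (f 2) hl4 hl8 (hlt 0 2 (by decide)) (hin 2).1 (hin 0).2 (hin 2).2
  have e3 := r1 l (f 0) (f 3) hl4 hl8 (hlt 0 3 (by decide)) (hin 3).1 (hin 0).2 (hin 3).2
  have e4 := r2 l (f 1) (f 2) hl4 hl8 (hlt 1 2 (by decide)) (hin 2).1 e1 e2
  have e5 := r2 l (f 1) (f 3) hl4 hl8 (hlt 1 3 (by decide)) (hin 3).1 e1 e3
  have e6 := r3 l (f 2) (f 3) hl4 hl8 (hlt 2 3 (by decide)) (hin 3).1 e4 e5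
  -- the test
  unfold lt
  rw [fc_eq, fc_eq, fc_eq, fc_eq]
  have hne : Nat.shiftRight (rl (rl (rl R))) 4096 ≠ 0 := by
    refine ne_zero_of_testBit (i := 1024 * l + f 3 - 4096) ?_
    show (rl (rl (rl R)) >>> 4096).testBit (1024 * l + f 3 - 4096) = true
    rw [Nat.testBit_shiftRight]
    have : 4096 + (1024 * l + f 3 - 4096) = 1024 * l + f 3 := by omega
    rw [this]
    exact e6
  rw [beq_false hne]
  obtain ⟨i, rfl⟩ : ∃ i, l = i + 4 := ⟨l - 4, by omega⟩
  exact slow_false R _ (lane_false hEXT R (i + 4) (f 3) _ a b c d ha hb hc hd (hin 3).1 e6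
    hRa hRb hRc hRd h1 h2 h3 h4 h5 h6 h7 h8) 4 (by omega)

end Pool.Agent.H870.PS.LT

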